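import Pool.Agent.H525.EX.Stm4

/-! EX/LOW (helper725 for helper525): the low rows vanish. -/

set_option autoImplicit false

namespace Pool.Agent.H725.EX

open Pool.Agent.H525.EX

theorem row_zero {s : ℕ} {ε P : ℝ} {u v : Arr} (h : Pre s ε P u v) (e : ℤ) (he : e ≠ 0) :
    u 0 e = 0 := by
  rcases lt_or_gt_of_ne he with h1 | h1
  · exact h.us 0 e (by simpa using h1)
  · have h2 := h.ua 0 (-e)
    rw [show 2 * (0 : ℤ) - -e = e by ring, zpow_zero, one_mul] at h2
    rw [h2]
    exact h.us 0 (-e) (by simpa using h1)

theorem low_rows {s : ℕ} {ε P : ℝ} {u v : Arr} (h : Sol s ε P u v) :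
    ∀ k : ℕ, ∀ n : ℤ, 0 < n → n < (k : ℤ) → n ≤ 2 * s → ∀ e : ℤ, u n e = 0 := by
  intro k
  induction k with
  | zero =>
    intro n hn hk
    exfalso
    have : n < 0 := by simpa using hk
    linarith
  | succ k ih =>
    intro n hn hk hs
    have hk' : n ≤ (k : ℤ) := by
      push_cast at hk
      linarith
    have h1 : ∀ e : ℤ, e < n → u n e = 0 := by
      intro e he
      have hA := h.pre.A n e
      rw [h.pre.vn (n - (2 * (s : ℤ) + 1)) _ (by linarith),
        h.pre.vn (e - (2 * (s : ℤ) + 1)) _ (by linarith), mul_zero, sub_zero, sub_zero] at hA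
      rw [hA]
      rcases lt_trichotomy e 0 with h0 | h0 | h0
      · exact h.pre.un e n h0
      · rw [h0]
        exact row_zero h.pre n hn.ne'
      · exact ih e h0 (by linarith) (by linarith) n
    have h2 : ∀ e : ℤ, n < e → u n e = 0 := by
      intro e he
      have hu := h.pre.ua n (2 * n - e)
      rw [show 2 * n - (2 * n - e) = e by ring, h1 (2 * n - e) (by linarith), mul_zero] at hu
      exact hu
    have h3 : u n n = 0 := by
      have hS := h.N n
      rw [if_neg hn.ne'] at hS
      unfold sm at hS
      rw [Finset.sum_eq_single n] at hS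
      · exact hS
      · intro e _ hne
        rcases lt_or_gt_of_ne hne with h4 | h4
        · exact h1 e h4
        · exact h2 e h4
      · intro h4
        exact absurd (Finset.mem_Icc.2 ⟨by linarith, by linarith⟩) h4
    intro e
    rcases lt_trichotomy e n with h5 | h5 | h5
    · exact h1 e h5
    · rw [h5]
      exact h3
    · exact h2 e h5

theorem t_low : Pool.Agent.H525.EX.S_low := by
  intro s ε P u v h n hn
  unfold du
  refine Finset.sum_eq_zero fun e _ => ?_
  rcases lt_trichotomy n 0 with h0 | h0 | h0
  · rw [h.pre.un n e h0, mul_zero]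
  · rw [h0]
    by_cases he : e = 0
    · rw [he, Int.cast_zero, zero_mul]
    · rw [row_zero h.pre e he, mul_zero]
  · rw [low_rows h (n.toNat + 1) n h0 (by
      push_cast
      have := Int.self_le_toNat n
      linarith) hn e, mul_zero]

end Pool.Agent.H725.EX
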